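import Pool.Agent.H809Z.Ball.Basic

open scoped Topology ENNReal InnerProductSpace
open Filter Metric Set MeasureTheory

namespace Pool.Agent.H809Z.Ball

namespace HopfD

lemma rho_bdd {n : ℕ} (S : St n) : ∃ B : ℝ, 0 ≤ B ∧ ∀ z, S.ρ z ≤ 0 → -S.ρ z ≤ B := by
  obtain ⟨B, hB⟩ := S.compact_le.exists_bound_of_continuousOn S.cont.continuousOn
  refine ⟨max B 0, le_max_right _ _, fun z hz => ?_⟩
  have := hB z hz
  rw [Real.norm_eq_abs] at this
  exact ((neg_le_abs _).trans this).trans (le_max_left _ _)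

lemma re_inner_le {n : ℕ} (w v : En n) : (⟪w, v⟫_ℂ).re ≤ ‖w‖ * ‖v‖ :=
  (Complex.re_le_norm _).trans (norm_inner_le_norm w v)

lemma alg {a b m α C K : ℝ} (ha : 0 ≤ a) (hb : b ^ 2 ≤ a ^ 2) (hm : 0 ≤ m)
    (hm2 : m ^ 2 = a ^ 2 + b ^ 2) (hα : a ≤ α) (hC : 0 ≤ C) (hK : K = 3 * C / 2 + 1) :
    C * m ^ 3 ≤ 3 * K * α * (a ^ 2 - b ^ 2) - K * (a ^ 3 - 3 * a * b ^ 2) := by
  have h1 : m ≤ 1.42 * a := by
    apply le_of_sq_le_sq _ (by positivity) |>.trans le_rfl
    nlinarith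
  have h2 : m ^ 3 ≤ (1.42 * a) ^ 3 := pow_le_pow_left₀ hm h1 3
  have h3 : 0 ≤ a ^ 3 := by positivity
  have h4 : m ^ 3 ≤ 3 * a ^ 3 := by nlinarith
  have h5 : C * m ^ 3 ≤ C * (3 * a ^ 3) := mul_le_mul_of_nonneg_left h4 hC
  have hK0 : 0 ≤ K := by rw [hK]; positivity
  have h6 : 0 ≤ K * (α - a) * (a ^ 2 - b ^ 2) :=
    mul_nonneg (mul_nonneg hK0 (by linarith)) (by linarith)
  have h7 : 3 * K * α * (a ^ 2 - b ^ 2) - K * (a ^ 3 - 3 * a * b ^ 2) =
      3 * (K * (α - a) * (a ^ 2 - b ^ 2)) + 2 * K * a ^ 3 := by ring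
  rw [h7, hK]
  rw [hK] at h6
  nlinarith

lemma rpow_sq {y : ℝ} (hy : 0 ≤ y) : ((y ^ 2) ^ (3 / 4 : ℝ)) ^ 2 = y ^ 3 := by
  rw [← Real.rpow_natCast y 2, ← Real.rpow_mul hy, ← Real.rpow_natCast _ 2, ← Real.rpow_mul hy,
    ← Real.rpow_natCast y 3]
  norm_num

lemma rpow_six {u : ℝ} (hu : 0 ≤ u) : (u ^ 6) ^ (4 / 3 : ℝ) = u ^ 8 := by
  rw [← Real.rpow_natCast u 6, ← Real.rpow_mul hu, ← Real.rpow_natCast u 8]
  norm_num

/-- the principal square root of `1 - x` -/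
noncomputable def rt (x : ℂ) : ℂ := (1 - x) ^ (2⁻¹ : ℂ)

lemma rt_sq (x : ℂ) : rt x ^ 2 = 1 - x := by
  have := Complex.cpow_nat_inv_pow (1 - x) (n := 2) (by norm_num)
  simpa [rt] using this

lemma rt_re (x : ℂ) : 0 ≤ (rt x).re := by
  rw [rt, Complex.cpow_inv_two_re]
  exact Real.sqrt_nonneg _

lemma rt_norm (x : ℂ) : ‖rt x‖ ^ 2 = ‖1 - x‖ := by
  rw [← norm_pow, rt_sq]

lemma re_pos {x : ℂ} (hx : x ∈ ball (0 : ℂ) 1) : 0 < (1 - x).re := by
  have h1 := mem_ball_zero_iff.mp hx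
  have h2 := Complex.re_le_norm x
  simp only [Complex.sub_re, Complex.one_re]
  linarith

lemma rt_diff : DifferentiableOn ℂ rt (ball 0 1) := by
  intro x hx
  apply DifferentiableAt.differentiableWithinAt
  unfold rt
  apply DifferentiableAt.cpow_const (by fun_prop)
  exact Or.inl (re_pos hx)

lemma re_two (s : ℂ) : (s ^ 2).re = s.re ^ 2 - s.im ^ 2 := by
  simp [pow_succ]

lemma re_three (s : ℂ) : (s ^ 3).re = s.re ^ 3 - 3 * s.re * s.im ^ 2 := by
  simp [pow_succ]; ring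

end HopfD

open HopfD

theorem hopf {n : ℕ} (S : St n) : S.Hopf := by
  obtain ⟨R0, hR0, hR⟩ := S.exists_radius
  obtain ⟨d0, C, hd0, hC, hN⟩ := S.normal
  obtain ⟨T, hT, ht⟩ := S.taylor R0
  obtain ⟨B, hB0, hB⟩ := rho_bdd S
  set R : ℝ := min (1 / (2 * (T * C ^ 2))) (1 / (3 * C)) with hRdef
  have hRpos : 0 < R := by positivity
  have hR1 : R * (2 * (T * C ^ 2)) ≤ 1 := by
    have : R ≤ 1 / (2 * (T * C ^ 2)) := min_le_left _ _
    rwa [le_div_iff₀ (by positivity)] at this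
  have hR2 : R * (3 * C) ≤ 1 := by
    have : R ≤ 1 / (3 * C) := min_le_right _ _
    rwa [le_div_iff₀ (by positivity)] at this
  set d1 : ℝ := min d0 (R / 2) with hd1
  have hd1pos : 0 < d1 := by positivity
  obtain ⟨θ, hθ0, hθ1, hθ⟩ := S.F_bound hd1pos
  have hθ2 : 0 < 1 - θ := by linarith
  refine ⟨(B + 24 * R) / (1 - θ), by positivity, fun w hw => ?_⟩
  have hz : S.φ w ∈ S.Ω := S.mφ hw
  have hFz : S.F (S.φ w) = w := S.Fφ w hw
  set z := S.φ w with hzdef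
  have hw1 : ‖w‖ < 1 := mem_ball_zero_iff.mp hw
  have hd : 0 < -S.ρ z := neg_pos.mpr (S.mem_iff.mp hz)
  set d := -S.ρ z with hddef
  rw [div_mul_eq_mul_div, le_div_iff₀ hθ2]
  by_cases hcase : d1 ≤ d
  · have h1 := hθ z (by linarith)
    rw [hFz] at h1
    have h2 := hB z (by linarith)
    have h3 : d * (1 - θ) ≤ B * (1 - ‖w‖) :=
      mul_le_mul h2 (by linarith) hθ2.le hB0
    have h4 : 0 ≤ 24 * R * (1 - ‖w‖) := mul_nonneg (by positivity) (by linarith)
    linarith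
  · push Not at hcase
    have e1 : d ≤ d0 := hcase.le.trans (min_le_left _ _)
    have e2 : d ≤ R / 2 := hcase.le.trans (min_le_right _ _)
    obtain ⟨-, N, hN1, hN2⟩ := hN z (by linarith) (by linarith)
    have hest : ∀ x : ℂ, ‖x‖ ≤ 3 * R →
        2 * R * S.ρ (z + x • N) ≤ 2 * R * (-d + x.re) + ‖x‖ ^ 2 := by
      intro x hx
      have n1 : ‖x • N‖ ≤ ‖x‖ * C := by
        rw [norm_smul]; gcongr
      have n2 : ‖x‖ * C ≤ 1 := by nlinarith
      have t1 := ht z (x • N) (hR z (by linarith)) (by linarith)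
      have t2 : fderiv ℝ S.ρ z (x • N) = x.re := by
        rw [← cx_re, map_smul, hN1]; simp
      have t3 : T * ‖x • N‖ ^ 2 ≤ T * (‖x‖ * C) ^ 2 := by gcongr
      have t4 := (abs_le.mp t1).2
      have t5 : S.ρ (z + x • N) ≤ -d + x.re + T * C ^ 2 * ‖x‖ ^ 2 := by nlinarith
      have t6 := mul_le_mul_of_nonneg_left t5 (show 0 ≤ 2 * R by positivity)
      have t7 : R * (2 * (T * C ^ 2)) * ‖x‖ ^ 2 ≤ 1 * ‖x‖ ^ 2 :=
        mul_le_mul_of_nonneg_right hR1 (by positivity)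
      nlinarith
    have hmaps : MapsTo (fun x : ℂ => z + x • N) (ball (-(R : ℂ)) (R + d / 2)) S.Ω := by
      intro x hx
      rw [mem_ball, dist_eq_norm, sub_neg_eq_add] at hx
      have a1 : ‖x‖ ≤ 3 * R := by
        have := norm_sub_le (x + R) (R : ℂ)
        rw [add_sub_cancel_right, Complex.norm_real, Real.norm_of_nonneg hRpos.le] at this
        linarith
      have a2 := hest x a1
      have a3 : ‖x + R‖ ^ 2 < (R + d / 2) ^ 2 := by
        have := norm_nonneg (x + R)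
        nlinarith
      have a4 : ‖x + R‖ ^ 2 = ‖x‖ ^ 2 + 2 * R * x.re + R ^ 2 := by
        rw [Complex.sq_norm, Complex.sq_norm, Complex.normSq_apply, Complex.normSq_apply]
        simp; ring
      rw [S.mem_iff]
      have a5 : 2 * R * S.ρ (z + x • N) < 0 := by nlinarith
      by_contra hcon
      push Not at hcon
      have := mul_nonneg (show 0 ≤ 2 * R by positivity) hcon
      linarith
    have hQd : DifferentiableOn ℂ (fun x : ℂ => 1 - ⟪w, S.F (z + x • N)⟫_ℂ)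
        (ball (-(R : ℂ)) (R + d / 2)) := by
      apply DifferentiableOn.const_sub
      exact (innerSL ℂ w).differentiable.comp_differentiableOn
        (S.hF.comp (by fun_prop) hmaps)
    have hQp : ∀ y ∈ ball (-(R : ℂ)) (R + d / 2),
        0 ≤ ((fun x : ℂ => 1 - ⟪w, S.F (z + x • N)⟫_ℂ) y).re := by
      intro y hy
      have b1 := re_inner_le w (S.F (z + y • N))
      have b2 : ‖S.F (z + y • N)‖ < 1 := mem_ball_zero_iff.mp (S.mF (hmaps hy))
      have b3 : ‖w‖ * ‖S.F (z + y • N)‖ ≤ 1 * 1 := mul_le_mul hw1.le b2.le (norm_nonneg _) one_pos.le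
      simp only [Complex.sub_re, Complex.one_re]
      linarith
    have hx0 : (0 : ℂ) ∈ ball (-(R : ℂ)) (R + d / 2) := by
      rw [mem_ball, dist_eq_norm, sub_neg_eq_add, zero_add, Complex.norm_real,
        Real.norm_of_nonneg hRpos.le]
      linarith
    have hH := harnack_lower hQd hQp hx0
    simp only [zero_smul, add_zero, sub_neg_eq_add, zero_add, Complex.norm_real,
      Real.norm_of_nonneg hRpos.le, Complex.sub_re, Complex.one_re, hFz] at hH
    have c1 : (⟪w, w⟫_ℂ).re = ‖w‖ ^ 2 := by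
      rw [inner_self_eq_norm_sq_to_K]; norm_cast
    have c2 : ‖S.F (z + (-(R : ℂ)) • N)‖ ≤ θ := by
      apply hθ
      have := hest (-(R : ℂ)) (by
        rw [norm_neg, Complex.norm_real, Real.norm_of_nonneg hRpos.le]; linarith)
      rw [norm_neg, Complex.norm_real, Real.norm_of_nonneg hRpos.le] at this
      simp only [Complex.neg_re, Complex.ofReal_re] at this
      have c3 : d1 ≤ R / 2 := min_le_right _ _
      have c4 : 2 * R * S.ρ (z + (-(R : ℂ)) • N) ≤ 2 * R * (-(R / 2)) := by nlinarith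
      have c5 := le_of_mul_le_mul_left c4 (by positivity)
      linarith
    have c3 : (⟪w, S.F (z + (-(R : ℂ)) • N)⟫_ℂ).re ≤ θ := by
      have b1 := re_inner_le w (S.F (z + (-(R : ℂ)) • N))
      have b3 : ‖w‖ * ‖S.F (z + (-(R : ℂ)) • N)‖ ≤ 1 * θ :=
        mul_le_mul hw1.le c2 (norm_nonneg _) one_pos.le
      linarith
    have c4 : d / (3 * R) ≤ 1 - (R / (R + d / 2)) ^ 2 := by
      have f0 : 0 < R + d / 2 := by positivity
      have f1 : 0 ≤ R / (R + d / 2) := by positivity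
      have f2 : R / (R + d / 2) ≤ 1 - d / (3 * R) := by
        rw [div_le_iff₀ f0]
        have : d / (3 * R) * (R + d / 2) ≤ d / 2 := by
          rw [div_mul_eq_mul_div, div_le_iff₀ (by positivity)]
          nlinarith
        linarith
      have f3 : 0 ≤ d / (3 * R) := by positivity
      nlinarith
    rw [c1] at hH
    have c5 : d / (3 * R) / 4 * (1 - θ) ≤
        (1 - (R / (R + d / 2)) ^ 2) / 4 * (1 - (⟪w, S.F (z + (-(R : ℂ)) • N)⟫_ℂ).re) := by
      have f3 : 0 ≤ d / (3 * R) := by positivity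
      apply mul_le_mul (by linarith) (by linarith) hθ2.le (by linarith)
    have c6 : d / (3 * R) / 4 * (1 - θ) ≤ 2 * (1 - ‖w‖) := by
      have := norm_nonneg w
      nlinarith
    have c7 : d * (1 - θ) = 12 * R * (d / (3 * R) / 4 * (1 - θ)) := by field_simp; norm_num
    have c8 : 12 * R * (d / (3 * R) / 4 * (1 - θ)) ≤ 12 * R * (2 * (1 - ‖w‖)) :=
      mul_le_mul_of_nonneg_left c6 (by positivity)
    have h4 : 0 ≤ B * (1 - ‖w‖) := mul_nonneg hB0 (by linarith)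
    linarith

theorem stepD {n : ℕ} (S : St n) (hD : S.DFLocal) (p : En n) (g : ℂ → En n) (hp : S.ρ p = 0)
    (hg : DifferentiableOn ℂ g (ball 0 1)) (hm : MapsTo g (ball 0 1) S.Ω) (C : ℝ)
    (hH : ∀ x ∈ ball (0 : ℂ) 1, ‖g x - p‖ ≤ C * ‖1 - x‖ ^ (3 / 4 : ℝ)) :
    ∃ c : ℝ, 0 < c ∧ ∀ᶠ t : ℝ in 𝓝[<] 1, c * (1 - t) ≤ -S.ρ (g t) := by
  have htend : Tendsto g (𝓝[ball 0 1] 1) (𝓝 p) := by
    rw [tendsto_iff_norm_sub_tendsto_zero]
    have h1 : Tendsto (fun x : ℂ => C * ‖1 - x‖ ^ (3 / 4 : ℝ)) (𝓝[ball 0 1] 1) (𝓝 0) := by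
      apply Tendsto.mono_left _ nhdsWithin_le_nhds
      have h2 : Continuous (fun x : ℂ => C * ‖1 - x‖ ^ (3 / 4 : ℝ)) :=
        continuous_const.mul (Continuous.rpow_const (by fun_prop) (fun _ => Or.inr (by norm_num)))
      apply h2.tendsto'
      simp
    apply squeeze_zero' (Eventually.of_forall fun _ => norm_nonneg _) _ h1
    filter_upwards [self_mem_nhdsWithin] with x hx using hH x hx
  obtain ⟨c0, hc0, hev⟩ := hD p g hp hg hm htend
  obtain ⟨l, hl, hl2⟩ := mem_nhdsLT_iff_exists_Ioo_subset.mp hev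
  have hl1 : l < 1 := hl
  obtain ⟨R0, hR0, hR⟩ := S.exists_radius
  obtain ⟨T, hT, ht⟩ := S.taylor (2 * R0)
  set C₂ : ℝ := T * C ^ 2 with hC₂
  have hC₂0 : 0 ≤ C₂ := by positivity
  set K : ℝ := 3 * C₂ / 2 + 1 with hK
  have hK0 : 0 < K := by positivity
  have hCK : C₂ ≤ K := by linarith
  set G : ℂ → ℂ := fun x => -cx (fderiv ℝ S.ρ p) (g x - p) with hG
  have hGd : DifferentiableOn ℂ G (ball 0 1) :=
    ((cx (fderiv ℝ S.ρ p)).differentiable.comp_differentiableOn (hg.sub_const p)).neg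
  have hGρ : ∀ x ∈ ball (0 : ℂ) 1, |S.ρ (g x) + (G x).re| ≤ C₂ * ‖rt x‖ ^ 3 := by
    intro x hx
    have a1 := hR p hp.le
    have a2 := hR (g x) (S.mem_iff.mp (hm hx)).le
    have a3 := norm_sub_le (g x) p
    have a4 := ht p (g x - p) (by linarith) (by linarith)
    rw [add_sub_cancel, hp, sub_zero, ← cx_re] at a4
    have a5 : ‖g x - p‖ ^ 2 ≤ (C * ‖1 - x‖ ^ (3 / 4 : ℝ)) ^ 2 :=
      pow_le_pow_left₀ (norm_nonneg _) (hH x hx) 2
    rw [mul_pow, ← rt_norm, rpow_sq (norm_nonneg _)] at a5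
    have a6 : S.ρ (g x) + (G x).re = S.ρ (g x) - (cx (fderiv ℝ S.ρ p) (g x - p)).re := by
      simp only [hG, Complex.neg_re]; ring
    rw [a6]
    calc _ ≤ T * ‖g x - p‖ ^ 2 := a4
      _ ≤ T * (C ^ 2 * ‖rt x‖ ^ 3) := by gcongr
      _ = _ := by rw [hC₂]; ring
  set u : ℝ := min (min ((1 - l) / 2) (1 / 2)) (c0 / (96 * K)) with hu
  have hl3 : 0 < 1 - l := by linarith
  have hu0 : 0 < u := by positivity
  have hu1 : u ≤ (1 - l) / 2 := (min_le_left _ _).trans (min_le_left _ _)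
  have hu2 : u ≤ 1 / 2 := (min_le_left _ _).trans (min_le_right _ _)
  have hu3 : u * (96 * K) ≤ c0 := by
    have : u ≤ c0 / (96 * K) := min_le_right _ _
    rwa [le_div_iff₀ (by positivity)] at this
  set r : ℝ := u ^ 6 with hr
  have hr0 : 0 < r := by positivity
  have hr1 : r ≤ u := pow_le_of_le_one hu0.le (by linarith) (by norm_num)
  have hsub : ball (((1 - r : ℝ)) : ℂ) r ⊆ ball 0 1 := by
    intro x hx
    rw [mem_ball, dist_eq_norm] at hx
    rw [mem_ball_zero_iff]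
    have := norm_add_le (x - ((1 - r : ℝ) : ℂ)) ((1 - r : ℝ) : ℂ)
    rw [sub_add_cancel, Complex.norm_real, Real.norm_of_nonneg (by linarith)] at this
    linarith
  set A : ℝ := 3 * K * (2 * u ^ 3) with hA
  set Q : ℂ → ℂ := fun x => G x + (A : ℂ) * rt x ^ 2 - (K : ℂ) * rt x ^ 3 with hQ
  have hQd : DifferentiableOn ℂ Q (ball (((1 - r : ℝ)) : ℂ) r) := by
    apply DifferentiableOn.mono _ hsub
    exact (hGd.add ((rt_diff.pow 2).const_mul _)).sub ((rt_diff.pow 3).const_mul _)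
  have hQre : ∀ x, (Q x).re = (G x).re + A * (rt x ^ 2).re - K * (rt x ^ 3).re := by
    intro x
    simp only [hQ, Complex.sub_re, Complex.add_re, Complex.re_ofReal_mul]
  have hQp : ∀ x ∈ ball (((1 - r : ℝ)) : ℂ) r, 0 ≤ (Q x).re := by
    intro x hx
    have hx1 := hsub hx
    have a1 := (abs_le.mp (hGρ x hx1)).1
    have a2 := S.mem_iff.mp (hm hx1)
    have a3 := re_pos hx1
    rw [← rt_sq, re_two] at a3
    have a4 : ‖rt x‖ ^ 2 = (rt x).re ^ 2 + (rt x).im ^ 2 := by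
      rw [Complex.sq_norm, Complex.normSq_apply]; ring
    have a5 : ‖1 - x‖ ≤ 2 * r := by
      rw [mem_ball, dist_eq_norm] at hx
      have e : 1 - x = (r : ℂ) - (x - ((1 - r : ℝ) : ℂ)) := by push_cast; ring
      rw [e]
      have := norm_sub_le (r : ℂ) (x - ((1 - r : ℝ) : ℂ))
      rw [Complex.norm_real, Real.norm_of_nonneg hr0.le] at this
      linarith
    have a6 : (rt x).re ≤ 2 * u ^ 3 := by
      apply le_of_sq_le_sq _ (by positivity) |>.trans le_rfl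
      rw [← rt_norm, a4] at a5
      have : (2 * u ^ 3) ^ 2 = 4 * r := by rw [hr]; ring
      nlinarith [sq_nonneg (rt x).im]
    have a7 := alg (rt_re x) (by linarith) (norm_nonneg _) a4 a6 hC₂0 hK
    rw [hQre, re_two, re_three]
    linarith
  have hcube : ∀ x, |(rt x ^ 3).re| ≤ ‖rt x‖ ^ 3 := fun x => by
    rw [← norm_pow]; exact Complex.abs_re_le_norm _
  have hcen : c0 * u ^ 8 / 2 ≤ (Q ((1 - r : ℝ) : ℂ)).re := by
    have hx1 := hsub (mem_ball_self hr0)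
    have a1 := (abs_le.mp (hGρ _ hx1)).1
    have a2 : c0 * (1 - (1 - r)) ^ (4 / 3 : ℝ) ≤ -S.ρ (g ((1 - r : ℝ) : ℂ)) :=
      hl2 (show 1 - r ∈ Ioo l 1 from ⟨by linarith, by linarith⟩)
    rw [sub_sub_cancel, hr, rpow_six hu0.le, ← hr] at a2
    have a3 := re_pos hx1
    rw [← rt_sq] at a3
    have a4 : ‖rt ((1 - r : ℝ) : ℂ)‖ = u ^ 3 := by
      have b1 := rt_norm ((1 - r : ℝ) : ℂ)
      have e : (1 : ℂ) - ((1 - r : ℝ) : ℂ) = (r : ℂ) := by push_cast; ring
      rw [e, Complex.norm_real, Real.norm_of_nonneg hr0.le] at b1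
      have e2 : r = (u ^ 3) ^ 2 := by rw [hr]; ring
      exact (pow_left_inj₀ (norm_nonneg _) (by positivity) (by norm_num)).mp (b1.trans e2)
    have a5 := (abs_le.mp (hcube ((1 - r : ℝ) : ℂ))).2
    rw [a4] at a1 a5
    have a6 : 0 ≤ A * (rt ((1 - r : ℝ) : ℂ) ^ 2).re := mul_nonneg (by positivity) a3.le
    have a7 := mul_le_mul_of_nonneg_left a5 hK0.le
    have a8 : C₂ * (u ^ 3) ^ 3 ≤ K * (u ^ 3) ^ 3 := mul_le_mul_of_nonneg_right hCK (by positivity)
    have a9 : u * (96 * K) * u ^ 8 ≤ c0 * u ^ 8 := mul_le_mul_of_nonneg_right hu3 (by positivity)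
    have a10 : u * (96 * K) * u ^ 8 = 96 * (K * (u ^ 3) ^ 3) := by ring
    have a11 : 0 ≤ K * (u ^ 3) ^ 3 := by positivity
    rw [hQre]
    linarith
  set η : ℝ := c0 * u ^ 2 / (64 * K) with hη
  have hη0 : 0 < η := by positivity
  refine ⟨c0 * u ^ 2 / 32, by positivity, ?_⟩
  have hmin : 0 < min r (η ^ 2) := by positivity
  filter_upwards [Ioo_mem_nhdsLT (show 1 - min r (η ^ 2) < 1 by linarith)] with t htt
  have t1 : 1 - r < t := by have := min_le_left r (η ^ 2); linarith [htt.1]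
  have t2 : 1 - t < η ^ 2 := by have := min_le_right r (η ^ 2); linarith [htt.1]
  have t3 : t < 1 := htt.2
  have hnorm : ‖(t : ℂ) - ((1 - r : ℝ) : ℂ)‖ = t - (1 - r) := by
    rw [← Complex.ofReal_sub, Complex.norm_real, Real.norm_of_nonneg (by linarith)]
  have htb : (t : ℂ) ∈ ball (((1 - r : ℝ)) : ℂ) r := by
    rw [mem_ball, dist_eq_norm, hnorm]; linarith
  have hHar := harnack_lower hQd hQp htb
  rw [hnorm] at hHar
  have a1 : (1 - t) / r ≤ 1 - ((t - (1 - r)) / r) ^ 2 := by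
    have f1 : (t - (1 - r)) / r = 1 - (1 - t) / r := by field_simp; ring
    have f2 : 0 ≤ (1 - t) / r := div_nonneg (by linarith) hr0.le
    have f3 : (1 - t) / r ≤ 1 := by rw [div_le_one hr0]; linarith
    rw [f1]; nlinarith
  have a2 : (1 - t) / r / 4 * (c0 * u ^ 8 / 2) ≤
      (1 - ((t - (1 - r)) / r) ^ 2) / 4 * (Q ((1 - r : ℝ) : ℂ)).re := by
    have f2 : 0 ≤ (1 - t) / r := div_nonneg (by linarith) hr0.le
    apply mul_le_mul (by linarith) hcen (by positivity) (by linarith)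
  have a3 : (1 - t) / r / 4 * (c0 * u ^ 8 / 2) = c0 * u ^ 2 / 8 * (1 - t) := by
    rw [hr]; field_simp; ring
  have a4 := (abs_le.mp (hGρ _ (hsub htb))).2
  have a5 := (abs_le.mp (hcube (t : ℂ))).1
  have a6 : (rt (t : ℂ) ^ 2).re = 1 - t := by rw [rt_sq]; simp
  have a7 : ‖rt (t : ℂ)‖ ^ 2 = 1 - t := by
    rw [rt_norm, ← Complex.ofReal_one, ← Complex.ofReal_sub, Complex.norm_real,
      Real.norm_of_nonneg (by linarith)]
  have a8 : ‖rt (t : ℂ)‖ ≤ η := by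
    apply le_of_sq_le_sq _ hη0.le |>.trans le_rfl
    linarith
  have a9 : ‖rt (t : ℂ)‖ ^ 3 ≤ η * (1 - t) := by
    rw [pow_succ', a7]
    exact mul_le_mul_of_nonneg_right a8 (by linarith)
  have a10 : K * ‖rt (t : ℂ)‖ ^ 3 ≤ c0 * u ^ 2 / 64 * (1 - t) := by
    calc _ ≤ K * (η * (1 - t)) := mul_le_mul_of_nonneg_left a9 hK0.le
      _ = _ := by rw [hη]; field_simp
  have a11 : C₂ * ‖rt (t : ℂ)‖ ^ 3 ≤ K * ‖rt (t : ℂ)‖ ^ 3 :=
    mul_le_mul_of_nonneg_right hCK (by positivity)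
  have a12 := mul_le_mul_of_nonneg_left a5 hK0.le
  have a13 : A * (1 - t) ≤ c0 * u ^ 2 / 16 * (1 - t) := by
    apply mul_le_mul_of_nonneg_right _ (by linarith)
    have := mul_le_mul_of_nonneg_right hu3 (show 0 ≤ u ^ 2 by positivity)
    rw [hA]; nlinarith
  rw [hQre (t : ℂ), a6] at hHar
  linarith

end Pool.Agent.H809Z.Ball
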